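import Pool.Agent.Y548.SSP.Virt

/-!
# Subset sum in finitely generated virtually metabelian groups

For every finitely generated group that has a metabelian subgroup of finite index and is not
virtually nilpotent, and every finite generating set, the subset sum problem is NP-complete.
-/

namespace Pool.Agent.Results.MP_521f94_lc.VirtuallyMetabelian

open Pool.Agent.NPC Pool.Agent.NPC.SSP648

/-- Let `G` be a group generated by `g 0, ..., g (n - 1)` that has a subgroup `M` of finite index
whose commutator subgroup is commutative, and suppose that no subgroup of finite index of `G` is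
nilpotent.  Then the subset sum problem of `G` with respect to these generators is in `NP` and is
`NP`-hard (under polynomial-time many-one reductions). -/
theorem result : ∀ (G : Type*) [Group G] (n : ℕ) (g : Fin n → G),
    Subgroup.closure (Set.range g) = ⊤ →
    (∃ M : Subgroup G, M.FiniteIndex ∧ ∀ a ∈ commutator M, ∀ b ∈ commutator M, a * b = b * a) →
    (¬ ∃ H : Subgroup G, H.FiniteIndex ∧ Group.IsNilpotent H) →
    InNPP (SubsetSum g) ∧ NPHardP (SubsetSum g) := by
  intro G _ n g hg hv hnot
  refine ⟨Y548.inNPP_virt g hv, ?_⟩
  have : Group.FG G := Group.fg_iff.2 ⟨Set.range g, hg, Set.finite_range g⟩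
  exact Y548.hard_virt hv hnot g (MonoidHom.id G) Function.injective_id
    (fun x => by rw [hg]; exact Subgroup.mem_top _)

end Pool.Agent.Results.MP_521f94_lc.VirtuallyMetabelian
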